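import Pool.Agent.H712R2.Par

set_option autoImplicit false

/-! # Lower bounds of bounded analytic functions at points far from their zeros -/

namespace Pool.Agent.J4H70.CR

open Filter Topology Set Metric

/-- the logarithm of a zero-free bounded function is close to its value at the centre -/
theorem log_bound {A : ℂ → ℂ} {c : ℂ} {r M : ℝ} (hr : 0 < r) (hA : DifferentiableOn ℂ A (ball c r))
    (h0 : ∀ z ∈ ball c r, A z ≠ 0) (hM : ∀ z ∈ ball c r, ‖A z‖ ≤ M) :
    ∃ ℓ : ℂ → ℂ, DifferentiableOn ℂ ℓ (ball c r) ∧ (∀ z ∈ ball c r, Complex.exp (ℓ z) = A z) ∧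
      ∀ z ∈ ball c r, ‖ℓ z - ℓ c‖ ≤
        2 * (Real.log (2 * M) - Real.log ‖A c‖) * ‖z - c‖ / (r - ‖z - c‖) := by
  have hc : c ∈ ball c r := mem_ball_self hr
  have hAc : 0 < ‖A c‖ := norm_pos_iff.2 (h0 c hc)
  have hM0 : 0 < M := hAc.trans_le (hM c hc)
  obtain ⟨ℓ, h1, h2, h3⟩ := Pool.Agent.H712R2.M.exists_log_ball hr hA h0 (Complex.log (A c))
    (Complex.exp_log (h0 c hc))
  have hre : ∀ z ∈ ball c r, (ℓ z).re = Real.log ‖A z‖ := by
    intro z hz
    rw [← h3 z hz, Complex.norm_exp, Real.log_exp]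
  obtain ⟨T, hT⟩ : ∃ T, T = Real.log (2 * M) - Real.log ‖A c‖ := ⟨_, rfl⟩
  have hT0 : 0 < T := by
    rw [hT, sub_pos]
    apply Real.log_lt_log hAc
    have := hM c hc
    linarith
  refine ⟨ℓ, h1, h3, fun z hz => ?_⟩
  rw [← hT]
  have hmap : ∀ w ∈ ball (0 : ℂ) r, c + w ∈ ball c r := by
    intro w hw
    rw [mem_ball, dist_eq_norm, add_sub_cancel_left]
    exact mem_ball_zero_iff.1 hw
  have h4 := Complex.borelCaratheodory_zero (f := fun w => ℓ (c + w) - ℓ c) (R := r) (M := T)
    (z := z - c) hT0 (by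
      apply DifferentiableOn.sub_const
      exact h1.comp ((differentiable_const c).add differentiable_id).differentiableOn hmap) (by
      intro w hw
      show (ℓ (c + w) - ℓ c).re ≤ T
      rw [Complex.sub_re, hre _ (hmap w hw), hre c hc, hT]
      have h5 := hM _ (hmap w hw)
      have h6 : 0 < ‖A (c + w)‖ := norm_pos_iff.2 (h0 _ (hmap w hw))
      have h7 : Real.log ‖A (c + w)‖ ≤ Real.log (2 * M) := Real.log_le_log h6 (by linarith)
      linarith) hr (by
      rw [mem_ball_zero_iff, ← dist_eq_norm]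
      exact hz) (by simp)
  simpa using h4

/-- the logarithmic derivative of a zero-free bounded function -/
theorem logderiv_bound {A : ℂ → ℂ} {c : ℂ} {r M : ℝ} (hr : 0 < r)
    (hA : DifferentiableOn ℂ A (ball c r)) (h0 : ∀ z ∈ ball c r, A z ≠ 0)
    (hM : ∀ z ∈ ball c r, ‖A z‖ ≤ M) :
    ‖deriv A c‖ ≤ 4 * (Real.log (2 * M) - Real.log ‖A c‖) / r * ‖A c‖ := by
  obtain ⟨ℓ, h1, h2, h3⟩ := log_bound hr hA h0 hM
  have hc : c ∈ ball c r := mem_ball_self hr
  have hAc : 0 < ‖A c‖ := norm_pos_iff.2 (h0 c hc)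
  have hT0 : 0 < Real.log (2 * M) - Real.log ‖A c‖ := by
    rw [sub_pos]
    apply Real.log_lt_log hAc
    have := hM c hc
    linarith
  have hd : DifferentiableAt ℂ ℓ c := h1.differentiableAt (isOpen_ball.mem_nhds hc)
  have h4 : HasDerivAt A (A c * deriv ℓ c) c := by
    have h5 : HasDerivAt (fun z => Complex.exp (ℓ z)) (Complex.exp (ℓ c) * deriv ℓ c) c :=
      hd.hasDerivAt.cexp
    rw [h2 c hc] at h5
    refine h5.congr_of_eventuallyEq ?_
    filter_upwards [isOpen_ball.mem_nhds hc] with z hz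
    exact (h2 z hz).symm
  rw [h4.deriv, norm_mul, mul_comm]
  gcongr
  apply hd.hasDerivAt.le_of_lip' (by positivity)
  filter_upwards [ball_mem_nhds c (half_pos hr)] with z hz
  have hz' : ‖z - c‖ < r / 2 := by rwa [mem_ball, dist_eq_norm] at hz
  refine (h3 z (ball_subset_ball (by linarith) hz)).trans ?_
  rw [div_le_iff₀ (by linarith)]
  have h6 : r / 2 ≤ r - ‖z - c‖ := by linarith
  calc 2 * (Real.log (2 * M) - Real.log ‖A c‖) * ‖z - c‖
      = 4 * (Real.log (2 * M) - Real.log ‖A c‖) / r * ‖z - c‖ * (r / 2) := by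
        field_simp
        ring
    _ ≤ _ := by gcongr

/-- Harnack -/
theorem harnack {A : ℂ → ℂ} {c z : ℂ} {r M : ℝ} (hr : 0 < r) (hA : DifferentiableOn ℂ A (ball c r))
    (h0 : ∀ z ∈ ball c r, A z ≠ 0) (hM : ∀ z ∈ ball c r, ‖A z‖ ≤ M) (hz : ‖z - c‖ ≤ r / 2) :
    M * (1 / 4 * (‖A c‖ / M) ^ 3) ≤ ‖A z‖ := by
  obtain ⟨ℓ, h1, h2, h3⟩ := log_bound hr hA h0 hM
  have hc : c ∈ ball c r := mem_ball_self hr
  have hzb : z ∈ ball c r := by
    rw [mem_ball, dist_eq_norm]
    linarith
  have hAc : 0 < ‖A c‖ := norm_pos_iff.2 (h0 c hc)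
  have hM0 : 0 < M := hAc.trans_le (hM c hc)
  have hT0 : 0 < Real.log (2 * M) - Real.log ‖A c‖ := by
    rw [sub_pos]
    apply Real.log_lt_log hAc
    have := hM c hc
    linarith
  have h4 : ‖ℓ z - ℓ c‖ ≤ 2 * (Real.log (2 * M) - Real.log ‖A c‖) := by
    refine (h3 z hzb).trans ?_
    rw [div_le_iff₀ (by linarith)]
    gcongr
    linarith
  have h5 : Real.log ‖A c‖ - Real.log ‖A z‖ ≤ 2 * (Real.log (2 * M) - Real.log ‖A c‖) := by
    have e1 : Real.log ‖A c‖ = (ℓ c).re := by
      rw [← h2 c hc, Complex.norm_exp, Real.log_exp]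
    have e2 : Real.log ‖A z‖ = (ℓ z).re := by
      rw [← h2 z hzb, Complex.norm_exp, Real.log_exp]
    have h6 := Complex.abs_re_le_norm (ℓ z - ℓ c)
    rw [Complex.sub_re] at h6
    have h7 := neg_abs_le ((ℓ z).re - (ℓ c).re)
    rw [e1] at h4 ⊢
    rw [e2]
    linarith
  have hAz : 0 < ‖A z‖ := norm_pos_iff.2 (h0 z hzb)
  have h6 : Real.log (M * (1 / 4 * (‖A c‖ / M) ^ 3)) ≤ Real.log ‖A z‖ := by
    rw [Real.log_mul hM0.ne' (by positivity), Real.log_mul (by norm_num) (by positivity),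
      Real.log_pow, Real.log_div hAc.ne' hM0.ne']
    have h7 : Real.log (1 / 4 : ℝ) = - 2 * Real.log 2 := by
      rw [one_div, Real.log_inv, show (4 : ℝ) = 2 ^ 2 by norm_num, Real.log_pow]
      push_cast
      ring
    rw [Real.log_mul (by norm_num) hM0.ne'] at h5
    rw [h7]
    push_cast
    linarith
  exact (Real.log_le_log_iff (by positivity) hAz).1 h6

/-- **Lower bound at a point far from the zeros.** -/
theorem lower {c' c₀ : ℂ} {R ρ : ℝ} (hR : 0 < R) (hρ : 0 < ρ) (hρR : ρ ≤ R)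
    (hc₀ : ‖c₀ - c'‖ ≤ R / 6) (k : ℕ) :
    ∀ (A : ℂ → ℂ) (M : ℝ), DifferentiableOn ℂ A (ball c' R) → (∀ c ∈ ball c' R, ‖A c‖ ≤ M) →
      M < 2 ^ k * ‖A c'‖ → (∀ z ∈ ball c₀ ρ, A z ≠ 0) →
      M * (1 / 4 * (ρ / R) ^ k * (‖A c'‖ / M) ^ 3) ≤ ‖A c₀‖ := by
  induction k with
  | zero =>
    intro A M _ hM h1 _
    have := hM c' (mem_ball_self hR)
    rw [pow_zero, one_mul] at h1
    linarith
  | succ k ih =>
    intro A M hA hM h1 h2
    have hc' : c' ∈ ball c' R := mem_ball_self hR
    have hAc : 0 < ‖A c'‖ := by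
      by_contra hcon
      have h3 : ‖A c'‖ = 0 := le_antisymm (not_lt.1 hcon) (norm_nonneg _)
      have := hM c' hc'
      rw [h3, mul_zero] at h1
      linarith
    have hM0 : 0 < M := hAc.trans_le (hM c' hc')
    have hρR1 : ρ / R ≤ 1 := (div_le_one hR).2 hρR
    by_cases hz : ∃ z ∈ ball c' (R / 3), A z = 0
    · obtain ⟨z, hz1, hAz⟩ := hz
      have hz2 : ‖c' - z‖ < R / 3 := by
        rw [← dist_eq_norm, dist_comm]; exact hz1
      have hzR : z ∈ ball c' R := ball_subset_ball (by linarith) hz1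
      obtain ⟨r, hr⟩ : ∃ r, r = R - ‖c' - z‖ := ⟨_, rfl⟩
      have hr0 : 0 < r := by rw [hr]; linarith
      have hrR : r ≤ R := by rw [hr]; linarith [norm_nonneg (c' - z)]
      have hB1 : DifferentiableOn ℂ (dslope A z) (ball c' R) :=
        (Complex.differentiableOn_dslope (isOpen_ball.mem_nhds hzR)).2 hA
      have hsubz : ball z r ⊆ ball c' R := by
        apply ball_subset_ball'
        rw [dist_comm, dist_eq_norm, hr]
        linarith
      have hB2 : ∀ c ∈ ball c' R, ‖dslope A z c‖ ≤ M / r := by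
        intro c hc
        by_cases hcz : c ∈ ball z r
        · refine Complex.norm_dslope_le_div_of_mapsTo_ball (R₁ := r) (hA.mono hsubz) ?_ hcz
          intro x hx
          rw [hAz, mem_closedBall_zero_iff]
          exact hM x (hsubz hx)
        · rw [mem_ball, not_lt, dist_eq_norm] at hcz
          have hne : c ≠ z := by
            rintro rfl
            simp at hcz
            linarith
          rw [dslope_of_ne _ hne, slope_def_module, hAz, sub_zero, norm_smul, norm_inv,
            ← div_eq_inv_mul]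
          exact div_le_div₀ hM0.le (hM c hc) hr0 hcz
      have hmul : ∀ w, A w = (w - z) * dslope A z w := by
        intro w
        have := sub_smul_dslope A z w
        rw [hAz, sub_zero, smul_eq_mul] at this
        exact this.symm
      have hB3 : ∀ w ∈ ball c₀ ρ, dslope A z w ≠ 0 := by
        intro w hw h3
        apply h2 w hw
        rw [hmul, h3, mul_zero]
      have hz0 : ρ ≤ ‖c₀ - z‖ := by
        by_contra hcon
        push Not at hcon
        apply h2 z _ hAz
        rw [mem_ball, dist_comm, dist_eq_norm]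
        exact hcon
      obtain ⟨u, hu⟩ : ∃ u, u = ‖c' - z‖ := ⟨_, rfl⟩
      rw [← hu] at hr hz2
      obtain ⟨D, hD⟩ : ∃ D, D = ‖dslope A z c'‖ := ⟨_, rfl⟩
      have hAD : ‖A c'‖ = u * D := by
        rw [hmul c', norm_mul, hD, hu]
      have hu0 : 0 < u := by
        rcases (norm_nonneg (c' - z)).eq_or_lt with h3 | h3
        · rw [hu, ← h3, zero_mul] at hAD
          linarith
        · rw [hu]
          exact h3
      have hD0 : 0 < D := by
        by_contra hcon
        have : u * D ≤ 0 := mul_nonpos_of_nonneg_of_nonpos hu0.le (not_lt.1 hcon)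
        linarith
      have hur : 2 * u ≤ r := by rw [hr]; linarith
      have h3 := ih (dslope A z) (M / r) hB1 hB2 (by
        rw [div_lt_iff₀ hr0, ← hD]
        rw [hAD, pow_succ] at h1
        calc M < 2 ^ k * 2 * (u * D) := h1
          _ = 2 ^ k * D * (2 * u) := by ring
          _ ≤ 2 ^ k * D * r := by gcongr) hB3
      rw [← hD] at h3
      rw [hmul c₀, norm_mul]
      have h4 : ‖A c'‖ / M ≤ D / (M / r) := by
        rw [hAD, div_div_eq_mul_div, mul_comm u D]
        gcongr
        linarith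
      calc M * (1 / 4 * (ρ / R) ^ (k + 1) * (‖A c'‖ / M) ^ 3)
          ≤ M * (1 / 4 * (ρ / R) ^ (k + 1) * (D / (M / r)) ^ 3) := by gcongr
        _ = ρ * (r / R) * (M / r * (1 / 4 * (ρ / R) ^ k * (D / (M / r)) ^ 3)) := by
            rw [pow_succ]
            field_simp
        _ ≤ ρ * 1 * (M / r * (1 / 4 * (ρ / R) ^ k * (D / (M / r)) ^ 3)) := by
            gcongr
            exact (div_le_one hR).2 hrR
        _ ≤ ‖c₀ - z‖ * ‖dslope A z c₀‖ := by
            rw [mul_one]
            gcongr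
    · push Not at hz
      have hsub : ball c' (R / 3) ⊆ ball c' R := ball_subset_ball (by linarith)
      have h3 := harnack (z := c₀) (by positivity : 0 < R / 3) (hA.mono hsub) hz
        (fun w hw => hM w (hsub hw)) (by linarith)
      refine le_trans ?_ h3
      have h4 : (ρ / R) ^ (k + 1) ≤ 1 := pow_le_one₀ (by positivity) hρR1
      gcongr
      linarith

end Pool.Agent.J4H70.CR
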