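import Pool.Agent.J4H70.CR.A

set_option autoImplicit false

/-! # Lower bounds in the presence of removable singularities -/

namespace Pool.Agent.J4H70.CR

open Filter Topology Set Metric

/-- Removal of finitely many singularities (copy of a lemma of `Pool.Agent.Y736.RN.JZ`). -/
theorem remove {c' : ℂ} {R M : ℝ} {E : Set ℂ} (hE : E.Finite) :
    ∀ A : ℂ → ℂ, DifferentiableOn ℂ A (ball c' R \ E) → (∀ c ∈ ball c' R \ E, ‖A c‖ ≤ M) →
      ∃ B : ℂ → ℂ, DifferentiableOn ℂ B (ball c' R) ∧ (∀ c ∈ ball c' R, ‖B c‖ ≤ M) ∧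
        ∀ c ∈ ball c' R \ E, B c = A c := by
  induction E, hE using Set.Finite.induction_on with
  | empty =>
    intro A hA hM
    refine ⟨A, by simpa using hA, fun c hc => hM c (by simpa using hc), fun c _ => rfl⟩
  | @insert e E' he hE' ih =>
    intro A hA hM
    have hU : IsOpen (ball c' R \ E') := isOpen_ball.sdiff hE'.isClosed
    by_cases heB : e ∈ ball c' R
    · have heU : e ∈ ball c' R \ E' := ⟨heB, he⟩
      have hs : (ball c' R \ E') \ {e} = ball c' R \ insert e E' := by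
        ext x
        simp only [mem_diff, mem_singleton_iff, mem_insert_iff, not_or]
        tauto
      have hd : DifferentiableOn ℂ A ((ball c' R \ E') \ {e}) := by rw [hs]; exact hA
      have hb : BddAbove (norm ∘ A '' ((ball c' R \ E') \ {e})) := by
        refine ⟨M, ?_⟩
        rintro _ ⟨x, hx, rfl⟩
        exact hM x (by rw [← hs]; exact hx)
      have h1 := Complex.differentiableOn_update_limUnder_of_bddAbove (hU.mem_nhds heU) hd hb
      have h2 : ∀ x ∈ ball c' R \ E',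
          ‖Function.update A e (limUnder (𝓝[≠] e) A) x‖ ≤ M := by
        intro x hx
        by_cases hxe : x = e
        · subst hxe
          have hc : ContinuousAt (Function.update A x (limUnder (𝓝[≠] x) A)) x :=
            (h1.differentiableAt (hU.mem_nhds hx)).continuousAt
          have ht : Tendsto (fun y => ‖Function.update A x (limUnder (𝓝[≠] x) A) y‖) (𝓝[≠] x)
              (𝓝 ‖Function.update A x (limUnder (𝓝[≠] x) A) x‖) :=
            (hc.norm.tendsto).mono_left nhdsWithin_le_nhds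
          refine le_of_tendsto ht ?_
          have h3 : ∀ᶠ y in 𝓝[≠] x, y ∈ ball c' R \ E' := nhdsWithin_le_nhds (hU.mem_nhds hx)
          filter_upwards [h3, self_mem_nhdsWithin] with y hy hyx
          have hyx' : y ≠ x := hyx
          rw [Function.update_of_ne hyx']
          exact hM y (by rw [← hs]; exact ⟨hy, hyx'⟩)
        · rw [Function.update_of_ne hxe]
          exact hM x (by rw [← hs]; exact ⟨hx, hxe⟩)
      obtain ⟨B, hB1, hB2, hB3⟩ := ih _ h1 h2
      refine ⟨B, hB1, hB2, fun c hc => ?_⟩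
      rw [← hs] at hc
      rw [hB3 c hc.1, Function.update_of_ne hc.2]
    · have hs : ball c' R \ insert e E' = ball c' R \ E' := by
        ext x
        simp only [mem_diff, mem_insert_iff, not_or]
        constructor
        · rintro ⟨h1, h2, h3⟩
          exact ⟨h1, h3⟩
        · rintro ⟨h1, h2⟩
          exact ⟨h1, fun h => heB (h ▸ h1), h2⟩
      rw [hs] at hA hM ⊢
      exact ih A hA hM

/-- **Lower bound at a point far from the zeros**, with removable singularities. -/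
theorem lower_E {c' c₀ : ℂ} {R ρ : ℝ} (hR : 0 < R) (hρ : 0 < ρ) (hρR : ρ ≤ R)
    (hc₀ : ‖c₀ - c'‖ ≤ R / 6) {E : Set ℂ} (hE : E.Finite) {A : ℂ → ℂ} {M : ℝ}
    (hA : DifferentiableOn ℂ A (ball c' R \ E)) (hM : ∀ c ∈ ball c' R \ E, ‖A c‖ ≤ M)
    (h1 : c' ∉ E) (h2 : c₀ ∉ E) {k : ℕ} (hk : M < 2 ^ k * ‖A c'‖)
    (h3 : ∀ z ∈ ball c₀ ρ ∩ ball c' R, ∃ ε : ℝ, 0 < ε ∧ ∀ᶠ w in 𝓝 z, ε ≤ ‖A w‖) :
    M * (1 / 4 * (ρ / 2 / R) ^ k * (‖A c'‖ / M) ^ 3) ≤ ‖A c₀‖ := by
  obtain ⟨B, hB1, hB2, hB3⟩ := remove hE A hA hM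
  have hc' : c' ∈ ball c' R := mem_ball_self hR
  have hc₀' : c₀ ∈ ball c' R := by
    rw [mem_ball, dist_eq_norm]
    linarith
  have e1 : B c' = A c' := hB3 c' ⟨hc', h1⟩
  have e2 : B c₀ = A c₀ := hB3 c₀ ⟨hc₀', h2⟩
  have hne : ∀ z ∈ ball c₀ (ρ / 2), B z ≠ 0 := by
    intro z hz hBz
    have hzR : z ∈ ball c' R := by
      rw [mem_ball, dist_eq_norm] at hz ⊢
      have h4 : z - c' = (z - c₀) + (c₀ - c') := by ring
      rw [h4]
      have := norm_add_le (z - c₀) (c₀ - c')
      linarith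
    obtain ⟨ε, hε, h4⟩ := h3 z ⟨ball_subset_ball (by linarith) hz, hzR⟩
    have hc : Tendsto (fun w => ‖B w‖) (𝓝[≠] z) (𝓝 ‖B z‖) :=
      ((hB1.differentiableAt (isOpen_ball.mem_nhds hzR)).continuousAt.norm.tendsto).mono_left
        nhdsWithin_le_nhds
    have h5 : ∀ᶠ y in 𝓝[≠] z, y ∉ E := by
      have h6 : IsOpen (E \ {z})ᶜ := (hE.subset sdiff_subset).isClosed.isOpen_compl
      have h7 : ∀ᶠ y in 𝓝[≠] z, y ∈ (E \ {z})ᶜ :=
        nhdsWithin_le_nhds (h6.mem_nhds (by simp))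
      filter_upwards [h7, self_mem_nhdsWithin] with y hy hyz hyE
      exact hy ⟨hyE, hyz⟩
    have h6 : ε ≤ ‖B z‖ := by
      refine ge_of_tendsto hc ?_
      filter_upwards [nhdsWithin_le_nhds h4, h5, nhdsWithin_le_nhds (isOpen_ball.mem_nhds hzR)]
        with w hw1 hw2 hw3
      rw [hB3 w ⟨hw3, hw2⟩]
      exact hw1
    rw [hBz, norm_zero] at h6
    linarith
  have h4 := lower (c₀ := c₀) hR (half_pos hρ) (by linarith) hc₀ k B M hB1 hB2
    (by rw [e1]; exact hk) hne
  rw [e1, e2] at h4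
  exact h4

end Pool.Agent.J4H70.CR
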