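import Pool.Agent.J4H70.ML.F
import Pool.Agent.J4H70.CR.B

set_option autoImplicit false

/-! # Lower bounds for the returns of the critical point: the dynamical plane -/

namespace Pool.Agent.J4H70.CR

open Filter Topology Set Metric MeasureTheory Pool.Agent.H712R2
open Pool.Agent.Y736.RN
open Pool.Agent.J4H70.ML (ip ip_eval ip_natDegree coin_finite SS simple_SS BQ BQ_ge BQ_le E1 E2
  compact_SS SS_eq)

variable {d p : ℕ}

/-- the margin -/
theorem exists_margin {V : Set ℂ} (hVb : Bornology.IsBounded V) {c : ℂ}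
    (hfr : ∀ z ∈ frontier V, (fc d c)^[p] z ∉ closure V) :
    ∃ η : ℝ, 0 < η ∧ ∀ x ∈ closure V, (fc d c)^[p] x ∈ closure V → ∀ y ∈ frontier V,
      η ≤ ‖y - x‖ := by
  have h1 : IsCompact (closure V ∩ (fc d c)^[p] ⁻¹' closure V) :=
    (Metric.isCompact_of_isClosed_isBounded isClosed_closure hVb.closure).inter_right
      (isClosed_closure.preimage (cont_it_y d p c))
  have h2 : Disjoint (closure V ∩ (fc d c)^[p] ⁻¹' closure V) (frontier V) := by
    rw [Set.disjoint_left]
    rintro x ⟨_, hx⟩ hx'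
    exact hfr x hx' hx
  obtain ⟨r, hr, h3⟩ := Metric.exists_pos_forall_lt_edist h1 isClosed_frontier h2
  refine ⟨r, by exact_mod_cast hr, fun x hx1 hx2 y hy => ?_⟩
  have h4 := h3 x ⟨hx1, hx2⟩ y hy
  rw [edist_dist, dist_comm, dist_eq_norm] at h4
  have h5 : (r : ENNReal) = ENNReal.ofReal (r : ℝ) := (ENNReal.ofReal_coe_nnreal).symm
  rw [h5] at h4
  exact ((ENNReal.ofReal_lt_ofReal_iff_of_nonneg (by positivity)).1 h4).le

/-- **The minimum principle.** -/
theorem min_principle (hd : 2 ≤ d) (hp : 1 ≤ p) {V : Set ℂ} (hVo : IsOpen V)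
    (hVb : Bornology.IsBounded V) {c : ℂ} (hfr : ∀ z ∈ frontier V, (fc d c)^[p] z ∉ closure V)
    {η : ℝ} (hη : 0 < η) (hmar : ∀ x ∈ closure V, (fc d c)^[p] x ∈ closure V →
      ∀ y ∈ frontier V, η ≤ ‖y - x‖) {i j : ℕ} (hij : i < j) (h1 : c ∉ E1 d (p * j))
    (h2 : c ∉ E2 d (p * (j - i))) (htrap : ∀ l, P d (p * l) c ∈ V) {R : ℝ} (hR : 0 < R)
    (hVR : ∀ x ∈ closure V, ∀ y ∈ V, ‖x - y‖ ≤ R) :
    η * ‖BQ (SS d p V i j c) R‖ ≤ ‖P d (p * j) c - P d (p * i) c‖ := by
  classical
  obtain ⟨F, hF⟩ : ∃ F : Polynomial ℂ, F = ip d (p * j) c - ip d (p * i) c := ⟨_, rfl⟩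
  have hFe : ∀ z, F.eval z = (fc d c)^[p * j] z - (fc d c)^[p * i] z := by
    intro z
    rw [hF, Polynomial.eval_sub, ip_eval, ip_eval]
  have hpij : p * i < p * j := Nat.mul_lt_mul_of_pos_left hij hp
  have hfin : (SS d p V i j c).Finite := (coin_finite hd c hpij).subset fun y hy => hy.2
  obtain ⟨S, hS⟩ : ∃ S : Finset ℂ, S = hfin.toFinset := ⟨_, rfl⟩
  have hmS : ∀ y, y ∈ S ↔ y ∈ SS d p V i j c := by
    intro y
    rw [hS, Set.Finite.mem_toFinset]
  obtain ⟨Q, hQ⟩ : ∃ Q : Polynomial ℂ, Q = ∏ y ∈ S, (Polynomial.X - Polynomial.C y) := ⟨_, rfl⟩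
  have hQe : ∀ z, ‖Q.eval z‖ = ∏ y ∈ S, ‖z - y‖ := by
    intro z
    rw [hQ, Polynomial.eval_prod, norm_prod]
    simp
  have hdvd : Q ∣ F := by
    rw [hQ]
    apply Finset.prod_dvd_of_coprime
    · intro x _ y _ hxy
      exact Polynomial.pairwise_coprime_X_sub_C (s := fun z : ℂ => z) Function.injective_id hxy
    · intro y hy
      rw [Polynomial.dvd_iff_isRoot, Polynomial.IsRoot.def, hFe, ((hmS y).1 hy).2, sub_self]
  obtain ⟨H, hH⟩ := hdvd
  obtain ⟨Ω, hΩ⟩ : ∃ Ω : Set ℂ, Ω = {z | ∀ l ≤ j, (fc d c)^[p * l] z ∈ V} := ⟨_, rfl⟩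
  have hΩo : IsOpen Ω := by
    have h : Ω = ⋂ l ∈ Finset.range (j + 1), ((fc d c)^[p * l]) ⁻¹' V := by
      ext z
      rw [hΩ]
      simp
    rw [h]
    exact isOpen_biInter_finset fun l _ => hVo.preimage (cont_it_y d (p * l) c)
  have hΩV : Ω ⊆ V := by
    intro z hz
    rw [hΩ] at hz
    have := hz 0 (by omega)
    simpa using this
  have hΩc : closure Ω ⊆ {z | ∀ l ≤ j, (fc d c)^[p * l] z ∈ closure V} := by
    apply closure_minimal
    · intro z hz l hl
      rw [hΩ] at hz
      exact subset_closure (hz l hl)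
    · have h : {z | ∀ l ≤ j, (fc d c)^[p * l] z ∈ closure V} =
          ⋂ l ∈ Finset.range (j + 1), ((fc d c)^[p * l]) ⁻¹' closure V := by
        ext z
        simp
      rw [h]
      exact isClosed_biInter fun l _ => isClosed_closure.preimage (cont_it_y d (p * l) c)
  -- the boundary of the domain
  have hbd : ∀ z ∈ frontier Ω, η ≤ ‖F.eval z‖ := by
    intro z hz
    rw [hΩo.frontier_eq] at hz
    have h3 := hΩc hz.1
    have h4 := hz.2
    rw [hΩ] at h4
    simp only [mem_ofPred_eq, not_forall] at h4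
    obtain ⟨l, hl, h5⟩ := h4
    have h6 : (fc d c)^[p * l] z ∈ frontier V := by
      rw [hVo.frontier_eq]
      exact ⟨h3 l hl, h5⟩
    have hlj : l = j := by
      by_contra hne
      apply hfr _ h6
      rw [← Function.iterate_add_apply, show p + p * l = p * (l + 1) by ring]
      exact h3 (l + 1) (by omega)
    rw [hlj] at h6
    rw [hFe]
    apply hmar _ (h3 i hij.le) _ _ h6
    rw [← Function.iterate_add_apply, show p + p * i = p * (i + 1) by ring]
    exact h3 (i + 1) (by omega)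
  have hQR : ∀ z ∈ closure V, ‖Q.eval z‖ ≤ R ^ S.card := by
    intro z hz
    rw [hQe, ← Finset.prod_const]
    apply Finset.prod_le_prod (fun _ _ => norm_nonneg _)
    intro y hy
    refine hVR z hz y ?_
    have := ((hmS y).1 hy).1 0 (by omega)
    simpa using this
  have hne : ∀ z ∈ closure Ω, H.eval z ≠ 0 := by
    intro z hz h0
    have hF0 : F.eval z = 0 := by rw [hH, Polynomial.eval_mul, h0, mul_zero]
    by_cases hzΩ : z ∈ Ω
    · have hzS : z ∈ SS d p V i j c := by
        rw [hΩ] at hzΩ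
        refine ⟨fun l hl => hzΩ l hl.le, ?_⟩
        rw [hFe] at hF0
        exact sub_eq_zero.1 hF0
      apply simple_SS hd hij h1 h2 hp hzS
      have h3 : (fun y => (fc d c)^[p * j] y - (fc d c)^[p * i] y) = fun y => F.eval y := by
        funext y
        rw [hFe]
      rw [h3, Polynomial.deriv, hH, Polynomial.derivative_mul, Polynomial.eval_add,
        Polynomial.eval_mul, Polynomial.eval_mul, h0, mul_zero, zero_add]
      have h4 : Q.eval z = 0 := by
        rw [← norm_eq_zero, hQe]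
        apply Finset.prod_eq_zero ((hmS z).2 hzS)
        simp
      rw [h4, zero_mul]
    · have h3 := hbd z (by rw [hΩo.frontier_eq]; exact ⟨hz, hzΩ⟩)
      rw [hF0, norm_zero] at h3
      linarith
  have hmax := Complex.norm_le_of_forall_mem_frontier_norm_le (U := Ω)
    (f := (fun z => H.eval z)⁻¹) (C := R ^ S.card / η) (z := 0) (hVb.subset hΩV)
    ((H.differentiable.diffContOnCl).inv hne) (by
      intro z hz
      have h3 := hbd z hz
      have h4 := hQR z (closure_mono hΩV (frontier_subset_closure hz))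
      have h5 : 0 < ‖H.eval z‖ := norm_pos_iff.2 (hne z (frontier_subset_closure hz))
      rw [hH, Polynomial.eval_mul, norm_mul] at h3
      rw [Pi.inv_apply, norm_inv, inv_eq_one_div, div_le_div_iff₀ h5 hη, one_mul]
      exact h3.trans (by gcongr)) (by
      apply subset_closure
      rw [hΩ]
      exact fun l _ => htrap l)
  have h0 : (0 : ℂ) ∈ Ω := by
    rw [hΩ]
    exact fun l _ => htrap l
  have h3 : 0 < ‖H.eval 0‖ := norm_pos_iff.2 (hne 0 (subset_closure h0))
  rw [Pi.inv_apply, norm_inv, inv_eq_one_div, div_le_div_iff₀ h3 hη, one_mul] at hmax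
  have h4 : P d (p * j) c - P d (p * i) c = F.eval 0 := by
    rw [hFe]
    rfl
  have h5 : ‖BQ (SS d p V i j c) R‖ = ‖Q.eval 0‖ / R ^ S.card := by
    unfold BQ
    rw [finprod_mem_eq_finite_toFinset_prod _ hfin, Set.ncard_eq_toFinset_card _ hfin, norm_div,
      norm_prod, norm_pow, Complex.norm_real, Real.norm_eq_abs, abs_of_pos hR, hQe, hS]
    simp
  rw [h4, h5, hH, Polynomial.eval_mul, norm_mul, ← mul_div_assoc, div_le_iff₀ (by positivity)]
  calc η * ‖Q.eval 0‖ ≤ (R ^ S.card * ‖H.eval 0‖) * ‖Q.eval 0‖ := by gcongr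
    _ = _ := by ring

/-- parameters without coincidence: the product is bounded below in a neighbourhood -/
theorem near_lower (hd : 2 ≤ d) (hp : 1 ≤ p) {V : Set ℂ} (hVo : IsOpen V)
    (hVb : Bornology.IsBounded V) {B : Set ℂ} (hBo : IsOpen B)
    (hfr : ∀ c ∈ B, ∀ z ∈ frontier V, (fc d c)^[p] z ∉ closure V) {i j : ℕ} (hij : i < j)
    {R : ℝ} (hR : 0 < R) {e : ℂ} (he : e ∈ B) (h : P d (p * j) e ≠ P d (p * i) e) :
    ∃ ε : ℝ, 0 < ε ∧ ∀ᶠ c in 𝓝 e, ε ≤ ‖BQ (SS d p V i j c) R‖ := by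
  obtain ⟨r, hr, hrB⟩ := Metric.isOpen_iff.1 hBo e he
  have h1 := (compact_SS hVo hVb hfr hij
    ((closedBall_subset_ball (half_lt_self hr)).trans hrB)).isClosed.isOpen_compl
  obtain ⟨s, hs, h2⟩ := Metric.isOpen_iff.1 h1 (e, (0 : ℂ)) (by
    rintro ⟨-, -, h3⟩
    exact h (sub_eq_zero.1 h3))
  obtain ⟨t, ht⟩ : ∃ t, t = min (min (s / 2) (r / 2)) R := ⟨_, rfl⟩
  have ht0 : 0 < t := by rw [ht]; positivity
  have hts : t < s := by
    have := min_le_left (min (s / 2) (r / 2)) R
    have := min_le_left (s / 2) (r / 2)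
    rw [ht]; linarith
  have htr : t ≤ r / 2 := by
    rw [ht]
    exact (min_le_left _ _).trans (min_le_right _ _)
  refine ⟨(t / R) ^ (d ^ (p * j)), by positivity, ?_⟩
  filter_upwards [ball_mem_nhds e ht0] with c hc
  have hpij : p * i < p * j := Nat.mul_lt_mul_of_pos_left hij hp
  have hfin : (SS d p V i j c).Finite := (coin_finite hd c hpij).subset fun y hy => hy.2
  refine BQ_ge ht0 (by rw [ht]; exact min_le_right _ _) hfin ?_ ?_
  · -- the number of solutions
    have h3 : ip d (p * j) c - ip d (p * i) c ≠ 0 := by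
      intro h0
      have h4 := congrArg Polynomial.natDegree (sub_eq_zero.1 h0)
      rw [ip_natDegree hd, ip_natDegree hd] at h4
      have := Nat.pow_lt_pow_right (show 1 < d by omega) hpij
      omega
    have h4 : SS d p V i j c ⊆ ((ip d (p * j) c - ip d (p * i) c).roots.toFinset : Set ℂ) := by
      intro y hy
      rw [Finset.mem_coe, Multiset.mem_toFinset, Polynomial.mem_roots h3, Polynomial.IsRoot.def,
        Polynomial.eval_sub, ip_eval, ip_eval, sub_eq_zero]
      exact hy.2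
    refine (Set.ncard_le_ncard h4 (Finset.finite_toSet _)).trans ?_
    rw [Set.ncard_coe_finset]
    refine (Multiset.toFinset_card_le _).trans ((Polynomial.card_roots' _).trans ?_)
    refine (Polynomial.natDegree_sub_le _ _).trans ?_
    rw [ip_natDegree hd, ip_natDegree hd]
    exact max_le le_rfl (Nat.pow_le_pow_right (by omega) hpij.le)
  · intro y hy
    by_contra hcon
    push Not at hcon
    apply h2 (show (c, y) ∈ ball (e, (0 : ℂ)) s by
      rw [← ball_prod_same]
      exact ⟨ball_subset_ball hts.le hc, mem_ball_zero_iff.2 (by linarith)⟩)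
    refine ⟨hy.1, ?_, sub_eq_zero.2 hy.2⟩
    exact ball_subset_closedBall (ball_subset_ball htr hc)

end Pool.Agent.J4H70.CR
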