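import Pool.Agent.J4H70.CR.C
import Pool.Agent.J4H70.ML.H

set_option autoImplicit false

/-! # Lower bounds for the returns of the critical point: the parameter plane -/

namespace Pool.Agent.J4H70.CR

open Filter Topology Set Metric MeasureTheory Pool.Agent.H712R2
open Pool.Agent.Y736.RN
open Pool.Agent.J4H70.ML (ip ip_eval ip_natDegree coin_finite SS simple_SS BQ BQ_ge BQ_le E1 E2
  E1_finite E2_finite compact_SS SS_eq count_dyn generic_target not_E1 exists_esc local_S FarPCF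
  PCF)
open N62a1eb23

variable {d p : ℕ}

/-- **Returns of the critical point are not too close.** -/
theorem returns (hd : 2 ≤ d) (hp : 1 ≤ p) {V : Set ℂ} (hVo : IsOpen V)
    (hVb : Bornology.IsBounded V) {c₀ : ℂ} (hc₀ : c₀ ∈ frontier (multibrotSet d))
    (hg : Good d p V c₀) (hE1 : ∀ N, c₀ ∉ E1 d N) (hE2 : ∀ N, 1 ≤ N → c₀ ∉ E2 d N) {X : ℝ}
    (hX : 0 < X) (hfar : FarPCF d p X c₀) :
    ∃ (C : ℝ) (J : ℕ), 0 ≤ C ∧ ∀ i j, i < j → J ≤ j →
      Real.exp (-(C * (j * (d : ℝ) ^ j))) ≤ ‖P d (p * j) c₀ - P d (p * i) c₀‖ := by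
  obtain ⟨hfr₀, hdeg, htrap⟩ := hg
  obtain ⟨δ, hδ, hfr⟩ := stab hVb hfr₀
  obtain ⟨c', hc', hesc, hE2'⟩ := exists_esc hd hc₀ (show 0 < δ / 16 by positivity)
  have hc'B : c' ∈ ball c₀ δ := by
    rw [mem_ball, dist_eq_norm]
    linarith
  -- the number of solutions at `c'`
  obtain ⟨C₀, hC₀⟩ := count_dyn hd hp hVo hVb (hfr c' hc'B) hesc (null_bad d c₀ c')
    (fun w hw hwB j hj => generic_target hd hp hVo hVb hfr hdeg hc'B hw
      (fun c hc m h => hwB ⟨m, c, hc, h⟩) j hj)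
  -- an exit time
  obtain ⟨i₀, hi₀⟩ : ∃ i, P d (p * i) c' ∉ closure V := by
    have h2 : Tendsto (fun i : ℕ => p * i) atTop atTop :=
      tendsto_atTop_mono (fun i => Nat.le_mul_of_pos_left i hp) tendsto_id
    exact ((hesc.comp h2).eventually (Bornology.isBounded_def.1 hVb.closure)).exists
  obtain ⟨η₀, hη₀, hη₀'⟩ : ∃ η₀ > 0, ∀ y : ℂ, ‖y‖ < η₀ → (fc d c')^[p * i₀] y ∉ closure V := by
    have h1 : IsOpen {y | (fc d c')^[p * i₀] y ∉ closure V} :=
      isClosed_closure.isOpen_compl.preimage (cont_it_y d _ _)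
    obtain ⟨η, hη, h2⟩ := Metric.isOpen_iff.1 h1 0 hi₀
    exact ⟨η, hη, fun y hy => h2 (mem_ball_zero_iff.2 hy)⟩
  obtain ⟨R₀, hR₀⟩ := hVb.closure.exists_norm_le
  obtain ⟨R, hRdef⟩ : ∃ R, R = max (2 * R₀) (max 1 (2 * η₀)) := ⟨_, rfl⟩
  have hR1 : 1 ≤ R := by rw [hRdef]; exact (le_max_left _ _).trans (le_max_right _ _)
  have hR : 0 < R := by linarith
  have hRη : 2 * η₀ ≤ R := by rw [hRdef]; exact (le_max_right _ _).trans (le_max_right _ _)
  have hRR : 2 * R₀ ≤ R := by rw [hRdef]; exact le_max_left _ _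
  have hVR : ∀ x ∈ closure V, ∀ y ∈ V, ‖x - y‖ ≤ R := by
    intro x hx y hy
    have h1 := hR₀ x hx
    have h2 := hR₀ y (subset_closure hy)
    have := norm_sub_le x y
    linarith
  have hVR' : ∀ y ∈ V, ‖y‖ ≤ R := by
    intro y hy
    have h2 := hR₀ y (subset_closure hy)
    have := norm_nonneg y
    linarith
  obtain ⟨η, hη, hmar⟩ := exists_margin hVb hfr₀
  -- the constants
  obtain ⟨B, hB⟩ := pow_unbounded_of_one_lt (R / η₀) (show (1 : ℝ) < 2 by norm_num)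
  obtain ⟨L, hL⟩ : ∃ L, L = Real.log (R / η₀) := ⟨_, rfl⟩
  have hL0 : 0 ≤ L := by
    rw [hL]
    apply Real.log_nonneg
    rw [one_le_div hη₀]
    linarith
  obtain ⟨J₁, hJ₁⟩ := eventually_atTop.1 hfar
  have hlim : Tendsto (fun n : ℕ => Real.exp (-(X * n))) atTop (𝓝 0) := by
    apply Real.tendsto_exp_neg_atTop_nhds_zero.comp
    exact Tendsto.const_mul_atTop hX tendsto_natCast_atTop_atTop
  obtain ⟨J₂, hJ₂⟩ := eventually_atTop.1 (hlim.eventually (gt_mem_nhds (show 0 < δ / 2 by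
    positivity)))
  refine ⟨(X * p + |Real.log δ|) * (B * C₀ + 1) + 3 * L * C₀ + |Real.log (4 / η)|,
    i₀ + 1 + J₁ + J₂, by positivity, fun i j hij hj => ?_⟩
  have hj1 : 1 ≤ j := by omega
  have hjpj : j ≤ p * j := Nat.le_mul_of_pos_left j hp
  have hpij : p * i < p * j := Nat.mul_lt_mul_of_pos_left hij hp
  obtain ⟨EE, hEE⟩ : ∃ EE : Set ℂ, EE = E1 d (p * j) ∪ E2 d (p * (j - i)) := ⟨_, rfl⟩
  have hEfin : EE.Finite := by
    rw [hEE]
    exact (E1_finite hd _).union (E2_finite hd (Nat.mul_pos hp (by omega)))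
  have hSV : ∀ c, ∀ y ∈ SS d p V i j c, ‖y‖ ≤ R := by
    intro c y hy
    apply hVR'
    have := hy.1 0 hj1
    simpa using this
  have hc'E : c' ∉ EE := by
    rw [hEE]
    rintro (h | h)
    · exact not_E1 hesc _ h
    · exact hE2' _ (Nat.mul_pos hp (by omega)) h
  have hc₀E : c₀ ∉ EE := by
    rw [hEE]
    rintro (h | h)
    · exact hE1 _ h
    · exact hE2 _ (Nat.mul_pos hp (by omega)) h
  have hsub : ball c' (δ / 2) ⊆ ball c₀ δ := by
    apply ball_subset_ball'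
    rw [dist_eq_norm]
    linarith
  obtain ⟨hc'fin, hcard⟩ := hC₀ i j hij
  obtain ⟨N, hN⟩ : ∃ N, N = C₀ * d ^ j := ⟨_, rfl⟩
  rw [← hN] at hcard
  obtain ⟨A, hA⟩ : ∃ A : ℂ → ℂ, A = fun c => BQ (SS d p V i j c) R := ⟨_, rfl⟩
  have hlow : (η₀ / R) ^ N ≤ ‖A c'‖ := by
    rw [hA]
    apply BQ_ge hη₀ (by linarith) hc'fin hcard
    intro y hy
    by_contra hlt
    push Not at hlt
    exact hη₀' y hlt (subset_closure (hy.1 i₀ (by omega)))
  obtain ⟨ρ, hρ⟩ : ∃ ρ, ρ = Real.exp (-(X * (p * j : ℕ))) := ⟨_, rfl⟩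
  have hρ0 : 0 < ρ := by rw [hρ]; exact Real.exp_pos _
  have hρδ : ρ < δ / 2 := by rw [hρ]; exact hJ₂ (p * j) (by omega)
  have key := lower_E (c' := c') (c₀ := c₀) (R := δ / 2) (ρ := ρ) (by positivity) hρ0 hρδ.le
    (by rw [norm_sub_rev]; linarith) hEfin (A := A) (M := 1)
    (by
      rw [hA]
      rintro c ⟨hc1, hc2⟩
      refine ((local_S hd hp hVo hVb isOpen_ball hfr hij R (hsub hc1) ?_ ?_).2
        ).differentiableWithinAt
      · intro h
        exact hc2 (by rw [hEE]; exact Or.inl h)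
      · intro h
        exact hc2 (by rw [hEE]; exact Or.inr h))
    (fun c _ => by rw [hA]; exact BQ_le hR (hSV c)) hc'E hc₀E (k := B * N + 1) (by
      calc (1 : ℝ) < 2 := by norm_num
        _ ≤ 2 * ((R / η₀) ^ N * (η₀ / R) ^ N) := by
            rw [← mul_pow, div_mul_div_comm, mul_comm η₀ R, div_self (by positivity), one_pow]
            norm_num
        _ ≤ 2 * ((2 ^ B) ^ N * (η₀ / R) ^ N) := by gcongr
        _ = 2 ^ (B * N + 1) * (η₀ / R) ^ N := by
            rw [← pow_mul, pow_succ]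
            ring
        _ ≤ _ := by gcongr)
    (by
      rintro z ⟨hz1, hz2⟩
      rw [hA]
      apply near_lower hd hp hVo hVb isOpen_ball hfr hij hR (hsub hz2)
      intro hcon
      have h1 := hJ₁ (p * j) (by omega) z ⟨p * i, hpij, by
        rw [← Nat.mul_sub]
        exact Dvd.intro _ rfl, hcon⟩
      rw [mem_ball, dist_eq_norm, hρ] at hz1
      linarith)
  have h1 := min_principle hd hp hVo hVb hfr₀ hη hmar hij (hE1 _)
    (hE2 _ (Nat.mul_pos hp (by omega))) htrap hR hVR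
  refine le_trans ?_ h1
  have h2 : ‖BQ (SS d p V i j c₀) R‖ = ‖A c₀‖ := by rw [hA]
  rw [h2]
  refine le_trans ?_ (mul_le_mul_of_nonneg_left key hη.le)
  rw [one_mul, div_one]
  -- the numbers
  obtain ⟨W, hW⟩ : ∃ W : ℝ, W = j * (d : ℝ) ^ j := ⟨_, rfl⟩
  have hdj : (1 : ℝ) ≤ (d : ℝ) ^ j := one_le_pow₀ (by exact_mod_cast (by omega : 1 ≤ d))
  have hjR : (1 : ℝ) ≤ j := by exact_mod_cast hj1
  have hW1 : 1 ≤ W := by
    rw [hW]
    nlinarith
  have hdW : (d : ℝ) ^ j ≤ W := by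
    rw [hW]
    nlinarith
  have hNR : (N : ℝ) = C₀ * (d : ℝ) ^ j := by rw [hN]; push_cast; ring
  have e1 : Real.exp (-(|Real.log (4 / η)| * W)) ≤ η * (1 / 4) := by
    have h3 : η * (1 / 4) = Real.exp (-(Real.log (4 / η))) := by
      rw [Real.exp_neg, Real.exp_log (by positivity), inv_div]
      ring
    rw [h3]
    apply Real.exp_le_exp.2
    have h4 := le_abs_self (Real.log (4 / η))
    have h5 := abs_nonneg (Real.log (4 / η))
    nlinarith
  have e2 : Real.exp (-(L * C₀ * W)) ≤ (η₀ / R) ^ N := by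
    have h3 : (η₀ / R) = Real.exp (-L) := by
      rw [Real.exp_neg, hL, Real.exp_log (by positivity), inv_div]
    rw [h3, ← Real.exp_nat_mul]
    apply Real.exp_le_exp.2
    rw [hNR]
    have h4 : (C₀ : ℝ) * (d : ℝ) ^ j ≤ C₀ * W := by gcongr
    nlinarith
  have e3 : Real.exp (-((X * p + |Real.log δ|) * (B * C₀ + 1) * W)) ≤
      (ρ / 2 / (δ / 2)) ^ (B * N + 1) := by
    have h3 : ρ / 2 / (δ / 2) = Real.exp (-(X * (p * j) + Real.log δ)) := by
      rw [neg_add, Real.exp_add, Real.exp_neg (Real.log δ), Real.exp_log hδ, hρ]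
      push_cast
      field_simp
    have h4 : Real.exp (-((X * p + |Real.log δ|) * j)) ≤ ρ / 2 / (δ / 2) := by
      rw [h3]
      apply Real.exp_le_exp.2
      have h4 := le_abs_self (Real.log δ)
      have h5 := abs_nonneg (Real.log δ)
      nlinarith
    refine le_trans ?_ (pow_le_pow_left₀ (Real.exp_pos _).le h4 _)
    rw [← Real.exp_nat_mul]
    apply Real.exp_le_exp.2
    push_cast
    rw [hNR]
    have h5 : ((B : ℝ) * (C₀ * (d : ℝ) ^ j) + 1) * j ≤ (B * C₀ + 1) * W := by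
      rw [hW]
      have h6 : (j : ℝ) ≤ j * (d : ℝ) ^ j := by nlinarith
      calc ((B : ℝ) * (C₀ * (d : ℝ) ^ j) + 1) * j
          = B * C₀ * (j * (d : ℝ) ^ j) + j := by ring
        _ ≤ B * C₀ * (j * (d : ℝ) ^ j) + j * (d : ℝ) ^ j := by gcongr
        _ = _ := by ring
    have h6 : 0 ≤ X * p + |Real.log δ| := by positivity
    nlinarith
  have hρq : 0 ≤ ρ / 2 / (δ / 2) := by positivity
  calc Real.exp (-(((X * p + |Real.log δ|) * (B * C₀ + 1) + 3 * L * C₀ +
        |Real.log (4 / η)|) * (j * (d : ℝ) ^ j)))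
      = Real.exp (-(|Real.log (4 / η)| * W)) *
          (Real.exp (-((X * p + |Real.log δ|) * (B * C₀ + 1) * W)) *
            Real.exp (-(L * C₀ * W)) ^ 3) := by
        rw [← Real.exp_nat_mul, ← Real.exp_add, ← Real.exp_add, hW]
        congr 1
        push_cast
        ring
    _ ≤ (η * (1 / 4)) * ((ρ / 2 / (δ / 2)) ^ (B * N + 1) * (‖A c'‖) ^ 3) := by
        gcongr
        exact e2.trans hlow
    _ = _ := by ring

end Pool.Agent.J4H70.CR
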