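import Pool.Agent.J4H70.CR.D
import Pool.Agent.J4H70.AS.A

set_option autoImplicit false

/-! # Parameters with tame returns of the critical point -/

namespace Pool.Agent.J4H70.CR

open Filter Topology Set Metric MeasureTheory Pool.Agent.H712R2
open Pool.Agent.Y736.RN
open Pool.Agent.J4H70.ML (E1 E2 E1_finite E2_finite FarPCF PCF Sep ae_sep nat_le_pow circles_null
  cik_interior)
open Pool.Agent.J4H70.AS (Calm ae_calm)
open Pool.Agent.R240.Loc
open N62a1eb23

variable {d p : ℕ}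

/-- points of bounded orbits separate at most exponentially fast -/
theorem lip (hd : 2 ≤ d) {c : ℂ} (hc : c ∈ multibrotSet d) (n m s : ℕ) :
    ‖P d (n + s) c - P d (m + s) c‖ ≤ ((d : ℝ) * 2 ^ (d - 1)) ^ s * ‖P d n c - P d m c‖ := by
  have hb := (mem_multibrot_iff hd c).1 hc
  induction s with
  | zero => simp
  | succ s ih =>
    rw [← Nat.add_assoc, ← Nat.add_assoc, P_succ, P_succ, add_sub_add_right_eq_sub]
    obtain ⟨x, hx⟩ : ∃ x, x = P d (n + s) c := ⟨_, rfl⟩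
    obtain ⟨y, hy⟩ : ∃ y, y = P d (m + s) c := ⟨_, rfl⟩
    rw [← hx, ← hy] at ih ⊢
    have hx2 : ‖x‖ ≤ 2 := by rw [hx]; exact hb _
    have hy2 : ‖y‖ ≤ 2 := by rw [hy]; exact hb _
    have h1 : ‖x ^ d - y ^ d‖ ≤ ((d : ℝ) * 2 ^ (d - 1)) * ‖x - y‖ := by
      rw [← Commute.geom_sum₂_mul (Commute.all x y) d, norm_mul]
      gcongr
      refine (norm_sum_le _ _).trans ?_
      have h2 : ∀ i ∈ Finset.range d, ‖x ^ i * y ^ (d - 1 - i)‖ ≤ 2 ^ (d - 1) := by
        intro i hi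
        rw [Finset.mem_range] at hi
        rw [norm_mul, norm_pow, norm_pow]
        calc ‖x‖ ^ i * ‖y‖ ^ (d - 1 - i) ≤ 2 ^ i * 2 ^ (d - 1 - i) := by gcongr
          _ = 2 ^ (d - 1) := by
            rw [← pow_add]
            congr 1
            omega
      refine (Finset.sum_le_sum h2).trans ?_
      rw [Finset.sum_const, Finset.card_range, nsmul_eq_mul]
    refine h1.trans ?_
    rw [pow_succ]
    calc (d : ℝ) * 2 ^ (d - 1) * ‖x - y‖
        ≤ (d : ℝ) * 2 ^ (d - 1) * (((d : ℝ) * 2 ^ (d - 1)) ^ s * ‖P d n c - P d m c‖) := by gcongr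
      _ = _ := by ring

/-- exponential growth beats a linear factor and constants -/
theorem exp_beats {κ Y K K' : ℝ} (h : κ < Y) (hK : 0 ≤ K) (hK' : 0 ≤ K') (hκ : 0 ≤ κ) :
    ∀ᶠ n : ℕ in atTop, K * (n + 1) * Real.exp (κ * n) + K' < Real.exp (Y * n) := by
  obtain ⟨τ, hτ⟩ : ∃ τ, τ = (Y - κ) / 2 := ⟨_, rfl⟩
  have hτ0 : 0 < τ := by rw [hτ]; linarith
  have hx : 1 < Real.exp τ := Real.one_lt_exp_iff.2 hτ0
  obtain ⟨K₁, hK₁⟩ : ∃ K₁, K₁ = 1 / (Real.exp τ - 1) := ⟨_, rfl⟩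
  have hK₁0 : 0 < K₁ := by
    rw [hK₁]
    exact div_pos one_pos (by linarith)
  have hlim : Tendsto (fun n : ℕ => Real.exp (τ * n)) atTop atTop := by
    apply Real.tendsto_exp_atTop.comp
    exact Tendsto.const_mul_atTop hτ0 tendsto_natCast_atTop_atTop
  filter_upwards [hlim.eventually_gt_atTop (K * (K₁ + 1) + K')] with n hn
  have h1 := nat_le_pow hx n
  rw [← hK₁, ← Real.exp_nat_mul, mul_comm (n : ℝ) τ] at h1
  obtain ⟨u, hu⟩ : ∃ u, u = Real.exp (τ * n) := ⟨_, rfl⟩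
  have hn0 : (0 : ℝ) ≤ n := Nat.cast_nonneg n
  have hu1 : 1 ≤ u := by
    rw [hu]
    exact Real.one_le_exp (by positivity)
  have hv1 : 1 ≤ Real.exp (κ * n) := Real.one_le_exp (by positivity)
  have h2 : Real.exp (Y * n) = u * u * Real.exp (κ * n) := by
    rw [hu, ← Real.exp_add, ← Real.exp_add]
    congr 1
    rw [hτ]
    ring
  rw [← hu] at h1 hn
  rw [h2]
  obtain ⟨v, hv⟩ : ∃ v, v = Real.exp (κ * n) := ⟨_, rfl⟩
  rw [← hv] at hv1 ⊢
  have h3 : (n : ℝ) + 1 ≤ (K₁ + 1) * u := by nlinarith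
  calc K * (n + 1) * v + K' ≤ K * ((K₁ + 1) * u) * v + K' * (u * v) := by
        have h4 : 1 ≤ u * v := by nlinarith
        have h5 : K * (n + 1) ≤ K * ((K₁ + 1) * u) := by gcongr
        have h6 : K * (n + 1) * v ≤ K * ((K₁ + 1) * u) * v := by gcongr
        nlinarith
    _ = (K * (K₁ + 1) + K') * (u * v) := by ring
    _ < u * (u * v) := by
        have h4 : 0 < u * v := by positivity
        nlinarith
    _ = u * u * v := by ring

/-- **Returns of the critical point are not too close.** -/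
theorem close_returns (hd : 2 ≤ d) (hp : 1 ≤ p) {c : ℂ} (hc : c ∈ frontier (multibrotSet d))
    (hr : Ren d c p) (hE1 : ∀ N, c ∉ E1 d N) (hE2 : ∀ N, 1 ≤ N → c ∉ E2 d N) {X : ℝ}
    (hX : 0 < X) (hfar : FarPCF d p X c) {Y : ℝ} (hY : Real.log d / p < Y) :
    ∀ᶠ n : ℕ in atTop, ∀ m < n, p ∣ n - m →
      Real.exp (-Real.exp (Y * n)) < ‖P d n c - P d m c‖ := by
  have hp0 : (0 : ℝ) < p := by exact_mod_cast hp
  have hdR : (1 : ℝ) < d := by exact_mod_cast (by omega : 1 < d)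
  have hcM : c ∈ multibrotSet d := (isCompact_multibrot hd).isClosed.frontier_subset hc
  obtain ⟨V, hV, hVo, hVb, hg⟩ := good_of_ren hr
  obtain ⟨C, J, hC0, hC⟩ := returns hd hp hVo hVb hc hg hE1 hE2 hX hfar
  obtain ⟨Λ, hΛ⟩ : ∃ Λ : ℝ, Λ = (d : ℝ) * 2 ^ (d - 1) := ⟨_, rfl⟩
  have hΛ1 : 1 ≤ Λ := by
    rw [hΛ]
    have : (1 : ℝ) ≤ 2 ^ (d - 1) := one_le_pow₀ (by norm_num)
    nlinarith
  have hev := exp_beats (κ := Real.log d / p) (Y := Y) (K := C * d) (K' := p * Real.log Λ)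
    hY (by positivity) (mul_nonneg hp0.le (Real.log_nonneg hΛ1))
    (div_nonneg (Real.log_nonneg hdR.le) hp0.le)
  filter_upwards [hev, eventually_ge_atTop (p * J)] with n hn hnJ m hm hdiv
  obtain ⟨j, hj⟩ : ∃ j, j = n / p + 1 := ⟨_, rfl⟩
  have hdm := Nat.div_add_mod n p
  have hmod : n % p < p := Nat.mod_lt n hp
  have hpj : p * j = p * (n / p) + p := by rw [hj]; ring
  have hJj : J ≤ j := by
    have : J ≤ n / p := (Nat.le_div_iff_mul_le hp).2 (by rw [Nat.mul_comm]; exact hnJ)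
    omega
  obtain ⟨q, hq⟩ := hdiv
  have hq1 : 1 ≤ q := by
    by_contra hcon
    have : q = 0 := by omega
    rw [this] at hq
    omega
  have hqj : q ≤ j := by
    by_contra hcon
    push Not at hcon
    have h3 : p * (j + 1) ≤ p * q := Nat.mul_le_mul_left p hcon
    have h4 : p * (j + 1) = p * j + p := by ring
    omega
  obtain ⟨s, hs⟩ : ∃ s, s = p * j - n := ⟨_, rfl⟩
  have hsp : s ≤ p := by omega
  have e1 : p * j = n + s := by omega
  have e2 : p * (j - q) = m + s := by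
    rw [Nat.mul_sub]
    have h3 : p * q ≤ p * j := Nat.mul_le_mul_left p hqj
    omega
  have h1 := hC (j - q) j (by omega) hJj
  rw [e1, e2] at h1
  have h2 := h1.trans (lip hd hcM n m s)
  rw [← hΛ] at h2
  have h3 : Λ ^ s ≤ Λ ^ p := pow_le_pow_right₀ hΛ1 hsp
  have h4 : Real.exp (-(C * (j * (d : ℝ) ^ j))) ≤ Λ ^ p * ‖P d n c - P d m c‖ :=
    h2.trans (by gcongr)
  have h5 : (d : ℝ) ^ j ≤ d * Real.exp (Real.log d / p * n) := by
    rw [hj, pow_succ, mul_comm]
    have h6 : (d : ℝ) ^ (n / p) ≤ Real.exp (Real.log d / p * n) := by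
      rw [← Real.exp_log (show (0 : ℝ) < d by linarith), ← Real.exp_nat_mul, Real.exp_log
        (show (0 : ℝ) < d by linarith)]
      apply Real.exp_le_exp.2
      have h7 : ((n / p : ℕ) : ℝ) ≤ n / p := Nat.cast_div_le
      calc ((n / p : ℕ) : ℝ) * Real.log d ≤ n / p * Real.log d := by
            have := Real.log_nonneg hdR.le
            gcongr
        _ = _ := by ring
    gcongr
  have h6 : (j : ℝ) ≤ n + 1 := by
    have : j ≤ n + 1 := by
      rw [hj]
      have := Nat.div_le_self n p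
      omega
    exact_mod_cast this
  have h7 : C * (j * (d : ℝ) ^ j) ≤ C * d * (n + 1) * Real.exp (Real.log d / p * n) := by
    calc C * (j * (d : ℝ) ^ j) ≤ C * ((n + 1) * (d * Real.exp (Real.log d / p * n))) := by gcongr
      _ = _ := by ring
  have h8 : Real.exp (-Real.exp (Y * n)) * Λ ^ p < Real.exp (-(C * (j * (d : ℝ) ^ j))) := by
    have h9 : Λ ^ p = Real.exp (p * Real.log Λ) := by
      rw [Real.exp_nat_mul, Real.exp_log (by linarith)]
    rw [h9, ← Real.exp_add]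
    apply Real.exp_lt_exp.2
    linarith
  have h9 : 0 < Λ ^ p := by positivity
  have h10 := h8.trans_le h4
  rw [mul_comm] at h10
  exact lt_of_mul_lt_mul_left h10 h9.le

theorem diff_P (d n : ℕ) : Differentiable ℂ (P d n) := diff_it_c d n 0

/-- **Velocities of the returns.** -/
theorem velocities (hd : 2 ≤ d) {c : ℂ} {X Y : ℝ} (hX : 0 < X) (hXY : X < Y)
    (hfar : FarPCF d p X c) (hcalm : Calm d X c)
    (hret : ∀ᶠ n : ℕ in atTop, ∀ m < n, p ∣ n - m →
      Real.exp (-Real.exp (X * n)) < ‖P d n c - P d m c‖) :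
    ∀ᶠ n : ℕ in atTop, ∀ m < n, p ∣ n - m →
      ‖deriv (P d n) c - deriv (P d m) c‖ ≤ Real.exp (2 * Y * n) * ‖P d n c - P d m c‖ := by
  have hev := exp_beats (κ := 2 * X) (Y := 2 * Y) (K := 4) (K' := 4 * Real.log 12)
    (by linarith) (by norm_num) (mul_nonneg (by norm_num) (Real.log_nonneg (by norm_num)))
    (by positivity)
  have hev2 := exp_beats (κ := X) (Y := 2 * X) (K := 4 * Real.log 12) (K' := 0)
    (by linarith) (mul_nonneg (by norm_num) (Real.log_nonneg (by norm_num))) le_rfl hX.le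
  filter_upwards [hfar, hcalm, hret, hev, hev2, eventually_ge_atTop 1] with n h1 h2 h3 h4 h5 hn1
    m hm hdiv
  have hn0 : (1 : ℝ) ≤ n := by exact_mod_cast hn1
  obtain ⟨r, hr⟩ : ∃ r, r = Real.exp (-(X * n)) := ⟨_, rfl⟩
  have hr0 : 0 < r := by rw [hr]; exact Real.exp_pos _
  obtain ⟨F, hF⟩ : ∃ F : ℂ → ℂ, F = fun a => P d n a - P d m a := ⟨_, rfl⟩
  have hFd : Differentiable ℂ F := by
    rw [hF]
    exact (diff_P d n).sub (diff_P d m)
  have h6 := logderiv_bound (A := F) (c := c) (M := 6) hr0 hFd.differentiableOn (by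
    intro a ha h0
    rw [hF] at h0
    have h7 := h1 a ⟨m, hm, hdiv, sub_eq_zero.1 h0⟩
    rw [mem_ball, dist_eq_norm, hr] at ha
    linarith) (by
    intro a ha
    rw [mem_ball, dist_eq_norm, hr] at ha
    rw [hF]
    have h7 := h2 a ha.le n le_rfl
    have h8 := h2 a ha.le m hm.le
    have := norm_sub_le (P d n a) (P d m a)
    show ‖P d n a - P d m a‖ ≤ 6
    linarith)
  have h7 : deriv F c = deriv (P d n) c - deriv (P d m) c := by
    rw [hF]
    exact (((diff_P d n) c).hasDerivAt.sub ((diff_P d m) c).hasDerivAt).deriv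
  have h8 : F c = P d n c - P d m c := by rw [hF]
  rw [h7, h8] at h6
  refine h6.trans ?_
  gcongr
  have h9 : -Real.exp (X * n) ≤ Real.log ‖P d n c - P d m c‖ := by
    rw [← Real.log_exp (-Real.exp (X * n))]
    exact Real.log_le_log (Real.exp_pos _) (h3 m hm hdiv).le
  have hr' : 1 / r = Real.exp (X * n) := by
    rw [hr, one_div, ← Real.exp_neg, neg_neg]
  have h10 : 4 * (Real.log (2 * 6) - Real.log ‖P d n c - P d m c‖) / r ≤
      4 * (Real.log 12 + Real.exp (X * n)) * Real.exp (X * n) := by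
    rw [← hr', div_eq_mul_one_div, show (2 : ℝ) * 6 = 12 by norm_num]
    gcongr
    rw [hr']
    linarith
  refine h10.trans ?_
  have h11 : Real.exp (X * n) * Real.exp (X * n) = Real.exp (2 * X * n) := by
    rw [← Real.exp_add]
    congr 1
    ring
  have h12 : 4 * Real.log 12 * Real.exp (X * n) ≤ Real.exp (2 * X * n) := by
    have h13 : 4 * Real.log 12 * Real.exp (X * n) ≤
        4 * Real.log 12 * (n + 1) * Real.exp (X * n) := by
      have : 0 ≤ Real.log 12 := Real.log_nonneg (by norm_num)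
      have h14 : 4 * Real.log 12 * 1 ≤ 4 * Real.log 12 * ((n : ℝ) + 1) := by
        gcongr
        linarith
      rw [mul_one] at h14
      gcongr
    linarith
  have h13 : 5 * Real.exp (2 * X * n) ≤ 4 * (n + 1) * Real.exp (2 * X * n) := by
    gcongr
    linarith
  have h14 : 0 ≤ 4 * Real.log 12 := mul_nonneg (by norm_num) (Real.log_nonneg (by norm_num))
  nlinarith

/-- tame returns at all periods of renormalization -/
def TR (d : ℕ) (c : ℂ) : Prop :=
  ∀ p : ℕ, 1 ≤ p → Ren d c p → ∀ X : ℝ, Real.log d / p < X → ∀ᶠ n : ℕ in atTop, ∀ m < n,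
    p ∣ n - m → Real.exp (-Real.exp (X * n)) < ‖P d n c - P d m c‖ ∧
      ‖deriv (P d n) c - deriv (P d m) c‖ ≤ Real.exp (2 * X * n) * ‖P d n c - P d m c‖

/-- almost every circle misses the exceptional parameters -/
theorem ae_E (hd : 2 ≤ d) (p₀ : ℂ) : ∀ᵐ s : ℝ, ∀ c : ℂ, dist c p₀ = s →
    (∀ N, c ∉ E1 d N) ∧ ∀ N, 1 ≤ N → c ∉ E2 d N := by
  have h1 : (⋃ N : ℕ, (E1 d N ∪ E2 d (N + 1))).Countable :=
    countable_iUnion fun N => ((E1_finite hd N).union (E2_finite hd (by omega))).countable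
  have h2 : volume ((fun z => dist z p₀) '' ⋃ N : ℕ, (E1 d N ∪ E2 d (N + 1))) = 0 :=
    (h1.image _).measure_zero volume
  filter_upwards [measure_eq_zero_iff_ae_notMem.1 h2] with s hs c hc
  constructor
  · intro N h
    exact hs ⟨c, mem_iUnion.2 ⟨N, Or.inl h⟩, hc⟩
  · intro N hN h
    exact hs ⟨c, mem_iUnion.2 ⟨N - 1, Or.inr (by rwa [Nat.sub_add_cancel hN])⟩, hc⟩

/-- almost every circle meets the boundary in parameters with tame returns only -/
theorem ae_TR (hd : 2 ≤ d) (p₀ : ℂ) :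
    ∀ᵐ s : ℝ, ∀ c ∈ frontier (multibrotSet d), dist c p₀ = s → TR d c := by
  have hdR : (1 : ℝ) < d := by exact_mod_cast (by omega : 1 < d)
  filter_upwards [ae_sep hd p₀, ae_calm hd p₀, ae_E hd p₀] with s h1 h2 h3 c hc hcs p hp hr X hX
  have hp0 : (0 : ℝ) < p := by exact_mod_cast hp
  obtain ⟨X₁, hX₁, hX₁'⟩ := exists_between hX
  have h0 : 0 < X₁ := lt_of_le_of_lt (div_nonneg (Real.log_nonneg hdR.le) hp0.le) hX₁
  have hfar := h1 c hc hcs p hp hr X₁ hX₁
  have hcalm := h2 c hc hcs p hp hr X₁ hX₁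
  have hret := close_returns hd hp hc hr (h3 c hcs).1 (h3 c hcs).2 h0 hfar hX₁
  have hret2 := close_returns hd hp hc hr (h3 c hcs).1 (h3 c hcs).2 h0 hfar hX
  have hvel := velocities hd h0 hX₁' hfar hcalm hret
  filter_upwards [hret2, hvel] with n hn1 hn2 m hm hdiv
  exact ⟨hn1 m hm hdiv, hn2 m hm hdiv⟩

/-- **Spreading to parameters with tame returns.** -/
theorem spread_TR (hd : 2 ≤ d) {p₀ : ℂ} (h : ¬ CIK (multibrotSet d) p₀) :
    ∃ ε : ℝ, 0 < ε ∧ ∀ᵐ s : ℝ, 0 < s → s < ε →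
      ∃ c ∈ frontier (multibrotSet d), dist c p₀ = s ∧ TR d c ∧ ¬ CIK (multibrotSet d) c := by
  obtain ⟨ε, hε, hs⟩ := spread (isCompact_multibrot hd) (isConnected_multibrot hd).isPreconnected h
  refine ⟨ε, hε, ?_⟩
  filter_upwards [ae_TR hd p₀] with s h1 hs0 hsε
  obtain ⟨z, hz, hzs, hzc⟩ := hs s hs0 hsε
  have hzf : z ∈ frontier (multibrotSet d) :=
    ⟨subset_closure hz, fun hi => hzc (cik_interior hi)⟩
  exact ⟨z, hzf, hzs, h1 z hzf hzs, hzc⟩

/-- local connectivity is decided at the parameters with tame returns -/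
theorem lcs_TR (hd : 2 ≤ d) : LocallyConnectedSpace (multibrotSet d) ↔
    ∀ c ∈ frontier (multibrotSet d), TR d c → CIK (multibrotSet d) c := by
  constructor
  · intro h c hc _
    exact lcs_iff.1 h c ((isCompact_multibrot hd).isClosed.frontier_subset hc)
  · intro h
    refine lcs_iff.2 fun p₀ _ => ?_
    by_contra hcon
    obtain ⟨ε, hε, h1⟩ := spread_TR hd hcon
    have h3 : ∃ s : ℝ, s ∈ Ioo 0 ε ∧ (0 < s → s < ε →
        ∃ c ∈ frontier (multibrotSet d), dist c p₀ = s ∧ TR d c ∧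
          ¬ CIK (multibrotSet d) c) := by
      by_contra h4
      push Not at h4
      have h5 : volume (Ioo 0 ε) = 0 := by
        apply measure_mono_null _ h1
        intro s hs hcon
        obtain ⟨h6, h7, h8⟩ := h4 s hs
        obtain ⟨c, hc1, hc2, hc3, hc4⟩ := hcon h6 h7
        exact hc4 (h8 c hc1 hc2 hc3)
      rw [Real.volume_Ioo, ENNReal.ofReal_eq_zero] at h5
      linarith
    obtain ⟨s, hs, h4⟩ := h3
    obtain ⟨c, hc1, _, hc3, hc4⟩ := h4 hs.1 hs.2
    exact hc4 (h c hc1 hc3)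

end Pool.Agent.J4H70.CR
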